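import Pool.Agent.L5helper98.CG.Defs

/-!
# KER: two sided bounds of the covariance of the fields (MP_e22585_pr)
-/

set_option autoImplicit false

open Filter Topology Set
open Pool.Agent.L5helper98.CG

namespace Pool.Agent.L5helper37.CG

theorem hasDeriv {c : Bool} {r : ℝ → ℝ} (h : Adm c r) {t : ℝ} (h0 : 0 < t) (h1 : t < 1) :
    HasDerivAt (fun s => Real.log (r s)) (deriv (fun s => Real.log (r s)) t) t := by
  have hd : DifferentiableAt ℝ r t :=
    (h.smooth.differentiableOn (by simp)).differentiableAt (Ioo_mem_nhds h0 h1)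
  exact (hd.log (h.pos t ⟨h0, h1⟩).ne').hasDerivAt

/-- one-sided comparison -/
theorem mono {L L' : ℝ → ℝ} {a b t₀ : ℝ} (hL : ∀ t, 0 < t → t ≤ t₀ → HasDerivAt L (L' t) t)
    (hb : ∀ t, 0 < t → t ≤ t₀ → 0 ≤ a * L' t + b / t) {d : ℝ} (hd : 0 < d) (hd0 : d ≤ t₀) :
    a * L d + b * Real.log d ≤ a * L t₀ + b * Real.log t₀ := by
  have hder : ∀ t ∈ Icc d t₀, HasDerivAt (fun t => a * L t + b * Real.log t)
      (a * L' t + b / t) t := by
    intro t ht
    have h1 := (hL t (hd.trans_le ht.1) ht.2).const_mul a
    have h2 := (Real.hasDerivAt_log (hd.trans_le ht.1).ne').const_mul b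
    rw [div_eq_mul_inv]
    exact h1.add h2
  have hm : MonotoneOn (fun t => a * L t + b * Real.log t) (Icc d t₀) := by
    apply monotoneOn_of_deriv_nonneg (convex_Icc d t₀)
    · exact fun t ht => (hder t ht).continuousAt.continuousWithinAt
    · intro t ht
      rw [interior_Icc] at ht
      exact (hder t ⟨ht.1.le, ht.2.le⟩).differentiableAt.differentiableWithinAt
    · intro t ht
      rw [interior_Icc] at ht
      rw [(hder t ⟨ht.1.le, ht.2.le⟩).deriv]
      exact hb t (hd.trans ht.1) ht.2.le
  exact hm (left_mem_Icc.2 hd0) (right_mem_Icc.2 hd0) hd0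

theorem KER_holds : St_KER := by
  intro c r μ hA hμ hB
  refine ⟨?_, ?_⟩
  · intro η hη
    -- the point `t₀`
    have he : 0 < η / μ := div_pos hη hμ
    have hlim := hA.lim
    rw [Metric.tendsto_nhdsWithin_nhds] at hlim
    obtain ⟨δ, hδ, hlim⟩ := hlim (η / μ) he
    set t₀ : ℝ := min (δ / 2) (1 / 4) with ht₀
    have ht0 : 0 < t₀ := lt_min (by linarith) (by norm_num)
    have ht4 : t₀ ≤ 1 / 4 := min_le_right _ _
    have htδ : t₀ ≤ δ / 2 := min_le_left _ _
    obtain ⟨B, hB⟩ := hB t₀ ⟨ht0, by linarith⟩
    have hBt : |Real.log (r t₀)| ≤ B := hB t₀ le_rfl (by linarith) (fun _ => by linarith)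
    have hB0 : 0 ≤ B := (abs_nonneg _).trans hBt
    -- bounds of the derivative
    have hder : ∀ t, 0 < t → t ≤ t₀ →
        |t * deriv (fun s => Real.log (r s)) t - 1| ≤ η / μ := by
      intro t ht htt
      have := hlim (x := t) ht (by rw [Real.dist_eq, sub_zero, abs_of_pos ht]; linarith)
      rw [Real.dist_eq] at this
      exact this.le
    have hL : ∀ t, 0 < t → t ≤ t₀ → HasDerivAt (fun s => Real.log (r s))
        (deriv (fun s => Real.log (r s)) t) t := fun t ht htt => hasDeriv hA ht (by linarith)
    have hμe : μ * (η / μ) = η := by field_simp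
    -- the two comparisons, multiplied by `μ`
    have lower : ∀ d, 0 < d → d ≤ t₀ →
        (μ - η) * (Real.log t₀ - Real.log d) - μ * Real.log (r t₀) ≤ -(μ * Real.log (r d)) := by
      intro d hd hdt
      have := mono (a := μ) (b := -(μ - η)) hL (fun t ht htt => by
        have h1 := (abs_le.1 (hder t ht htt)).1
        have h2 : 0 ≤ (μ * (t * deriv (fun s => Real.log (r s)) t) - (μ - η)) / t := by
          apply div_nonneg _ ht.le
          nlinarith
        have h3 : μ * deriv (fun s => Real.log (r s)) t + -(μ - η) / t =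
            (μ * (t * deriv (fun s => Real.log (r s)) t) - (μ - η)) / t := by
          field_simp
          ring
        rw [h3]; exact h2) hd hdt
      linarith
    have upper : ∀ d, 0 < d → d ≤ t₀ →
        -(μ * Real.log (r d)) ≤ (μ + η) * (Real.log t₀ - Real.log d) - μ * Real.log (r t₀) := by
      intro d hd hdt
      have := mono (a := -μ) (b := μ + η) hL (fun t ht htt => by
        have h1 := (abs_le.1 (hder t ht htt)).2
        have h2 : 0 ≤ ((μ + η) - μ * (t * deriv (fun s => Real.log (r s)) t)) / t := by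
          apply div_nonneg _ ht.le
          nlinarith
        have h3 : -μ * deriv (fun s => Real.log (r s)) t + (μ + η) / t =
            ((μ + η) - μ * (t * deriv (fun s => Real.log (r s)) t)) / t := by
          field_simp
          ring
        rw [h3]; exact h2) hd hdt
      linarith
    have hlt : Real.log t₀ ≤ 0 := Real.log_nonpos ht0.le (by linarith)
    set K₀ : ℝ := μ * B + (μ + η) * (-Real.log t₀) with hK₀
    have hK₀' : 0 ≤ K₀ := by
      have : 0 ≤ (μ + η) * (-Real.log t₀) := mul_nonneg (by linarith) (by linarith)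
      have : 0 ≤ μ * B := mul_nonneg hμ.le hB0
      linarith
    have hbt := abs_le.1 hBt
    -- the bounds of `-μ log r(d)`
    have main : ∀ d, 0 < d → d < 1 → (c = true → d ≤ 1 / 2) →
        (μ - η) * Real.log (1 / d) - K₀ ≤ -(μ * Real.log (r d)) ∧
        -(μ * Real.log (r d)) ≤ (μ + η) * Real.log (1 / d) + K₀ := by
      intro d hd hd1 hdc
      rw [one_div, Real.log_inv]
      rcases le_or_gt d t₀ with hdt | hdt
      · have h1 := lower d hd hdt
        have h2 := upper d hd hdt
        have h3 : μ * Real.log (r t₀) ≤ μ * B := mul_le_mul_of_nonneg_left hbt.2 hμ.le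
        have h4 : μ * -B ≤ μ * Real.log (r t₀) := mul_le_mul_of_nonneg_left hbt.1 hμ.le
        have h5 : 0 ≤ μ * (-Real.log t₀) := mul_nonneg hμ.le (by linarith)
        have h6 : 0 ≤ η * (-Real.log t₀) := mul_nonneg hη.le (by linarith)
        constructor
        · nlinarith
        · nlinarith
      · have hb := abs_le.1 (hB d hdt.le hd1 hdc)
        have h3 : μ * Real.log (r d) ≤ μ * B := mul_le_mul_of_nonneg_left hb.2 hμ.le
        have h4 : μ * -B ≤ μ * Real.log (r d) := mul_le_mul_of_nonneg_left hb.1 hμ.le
        have h7 : Real.log t₀ ≤ Real.log d := Real.log_le_log ht0 hdt.le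
        have h8 : Real.log d ≤ 0 := Real.log_nonpos hd.le hd1.le
        have h9 : (μ - η) * -Real.log d ≤ (μ + η) * (-Real.log t₀) :=
          (mul_le_mul_of_nonneg_right (by linarith) (by linarith)).trans
            (mul_le_mul_of_nonneg_left (by linarith) (by linarith))
        have h10 : 0 ≤ (μ + η) * -Real.log d := mul_nonneg (by linarith) (by linarith)
        have h11 : 0 ≤ (μ + η) * (-Real.log t₀) := mul_nonneg (by linarith) (by linarith)
        constructor
        · linarith
        · linarith
    refine ⟨K₀ + (μ + η), t₀, by linarith, ht0, by linarith, ?_⟩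
    intro ε hε hεt d hd hd1 hdc
    unfold cv
    split_ifs with hcase
    · rw [max_eq_left hcase]
      obtain ⟨h1, h2⟩ := main d (hε.trans_le hcase) hd1 hdc
      constructor
      · linarith
      · linarith
    · push Not at hcase
      rw [max_eq_right hcase.le]
      obtain ⟨h1, h2⟩ := main ε hε (by linarith) (fun _ => by linarith)
      have h3 := abs_le.1 (hder ε hε hεt)
      have h4 : 0 ≤ 1 - d / ε := by
        rw [sub_nonneg, div_le_one hε]; exact hcase.le
      have h5 : 1 - d / ε ≤ 1 := by
        have : 0 ≤ d / ε := div_nonneg hd hε.le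
        linarith
      set D : ℝ := ε * deriv (fun t => Real.log (r t)) ε with hD
      have h6 : |(1 - d / ε) * D| ≤ 1 + η / μ := by
        rw [abs_mul, abs_of_nonneg h4]
        have h7 : |D| ≤ 1 + η / μ := by
          rw [abs_le]; constructor <;> linarith [h3.1, h3.2]
        calc (1 - d / ε) * |D| ≤ 1 * |D| := mul_le_mul_of_nonneg_right h5 (abs_nonneg _)
          _ ≤ 1 + η / μ := by rw [one_mul]; exact h7
      have h8 := abs_le.1 h6
      have h9 : μ * ((1 - d / ε) * D) ≤ μ * (1 + η / μ) := mul_le_mul_of_nonneg_left h8.2 hμ.le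
      have h10 : μ * -(1 + η / μ) ≤ μ * ((1 - d / ε) * D) := mul_le_mul_of_nonneg_left h8.1 hμ.le
      have h11 : μ * (1 + η / μ) = μ + η := by rw [mul_add, hμe, mul_one]
      have h12 : μ * (-Real.log (r ε) + (1 - d / ε) * D) =
          -(μ * Real.log (r ε)) + μ * ((1 - d / ε) * D) := by ring
      rw [h12]
      constructor
      · linarith
      · linarith
  · have h1 : Tendsto (fun ε : ℝ => μ * (ε * deriv (fun s => Real.log (r s)) ε - 1)) (𝓝[>] 0)
        (𝓝 0) := by
      have := (hA.lim.sub_const 1).const_mul μ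
      simpa using this
    refine h1.congr' ?_
    filter_upwards [self_mem_nhdsWithin] with ε hε
    have hε' : ¬ ε ≤ 0 := not_le.2 hε
    unfold cv
    rw [if_neg hε']
    simp only [zero_div, sub_zero, one_mul]
    ring

end Pool.Agent.L5helper37.CG
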